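import Pool.Agent.Q121.HY.Stm

/-! # Project HY: assembly -/

open scoped Classical

namespace Q121.HY

/-- ordered pairs at relation `F = c` -/
noncomputable def op (c : ℝ) (S : Finset V) : Finset (V × V) :=
  (S ×ˢ S).filter (fun q => F c q.1 q.2 = c)

theorem countP_eq (c : ℝ) (x : V) (L : List V) (hL : L.Nodup) :
    L.countP (fun y => decide (F c x y = c)) = (L.toFinset.filter (fun y => F c x y = c)).card := by
  rw [List.countP_eq_length_filter]
  have h : (L.filter (fun y => decide (F c x y = c))).toFinset =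
      L.toFinset.filter (fun y => F c x y = c) := by
    ext y; simp
  rw [← h, List.toFinset_card_of_nodup (hL.filter _)]

theorem two_ec (c : ℝ) (L : List V) (hL : L.Nodup) :
    2 * ec c L ≤ (op c L.toFinset).card := by
  induction L with
  | nil => simp [ec]
  | cons x L ih =>
    have hx : x ∉ L := (List.nodup_cons.mp hL).1
    have hL' := (List.nodup_cons.mp hL).2
    have ih' := ih hL'
    have e : ec c (x :: L) = ec c L + L.countP (fun y => decide (F c x y = c)) := by
      simp only [ec]
    rw [e, countP_eq c x L hL']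
    set S := L.toFinset with hS
    have hxS : x ∉ S := by simpa [hS] using hx
    set N := S.filter (fun y => F c x y = c) with hN
    have h1 : (N.image (fun y => (x, y))).card = N.card :=
      Finset.card_image_of_injective _ (fun a b h => (Prod.mk.inj h).2)
    have h2 : (N.image (fun y => (y, x))).card = N.card :=
      Finset.card_image_of_injective _ (fun a b h => (Prod.mk.inj h).1)
    have hsub : op c S ∪ (N.image (fun y => (x, y)) ∪ N.image (fun y => (y, x))) ⊆
        op c (x :: L).toFinset := by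
      intro q hq
      simp only [Finset.mem_union, Finset.mem_image] at hq
      simp only [op, Finset.mem_filter, Finset.mem_product, List.toFinset_cons,
        Finset.mem_insert] at *
      rcases hq with hq | ⟨y, hy, rfl⟩ | ⟨y, hy, rfl⟩
      · exact ⟨⟨Or.inr hq.1.1, Or.inr hq.1.2⟩, hq.2⟩
      · rw [hN, Finset.mem_filter] at hy
        exact ⟨⟨Or.inl rfl, Or.inr hy.1⟩, hy.2⟩
      · rw [hN, Finset.mem_filter] at hy
        exact ⟨⟨Or.inr hy.1, Or.inl rfl⟩, by rw [F_comm]; exact hy.2⟩
    have hd1 : Disjoint (N.image (fun y => (x, y))) (N.image (fun y => (y, x))) := by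
      rw [Finset.disjoint_left]
      intro q h1 h2
      simp only [Finset.mem_image] at h1 h2
      obtain ⟨y, hy, rfl⟩ := h1
      obtain ⟨z, hz, h⟩ := h2
      have : z = x := (Prod.mk.inj h).1
      rw [hN, Finset.mem_filter] at hz
      exact hxS (this ▸ hz.1)
    have hd2 : Disjoint (op c S) (N.image (fun y => (x, y)) ∪ N.image (fun y => (y, x))) := by
      rw [Finset.disjoint_left]
      intro q h1 h2
      simp only [op, Finset.mem_filter, Finset.mem_product, Finset.mem_union,
        Finset.mem_image] at h1 h2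
      rcases h2 with ⟨y, hy, rfl⟩ | ⟨y, hy, rfl⟩
      · exact hxS h1.1.1
      · exact hxS h1.1.2
    have h3 := Finset.card_le_card hsub
    rw [Finset.card_union_of_disjoint hd2, Finset.card_union_of_disjoint hd1, h1, h2] at h3
    omega

/-- number of touching pairs in `P`: half of the number of ordered pairs at distance `d` -/
noncomputable def touching (d : ℝ) (P : Finset UpperHalfPlane) : ℕ :=
  ((P ×ˢ P).filter (fun q => dist q.1 q.2 = d)).card / 2

/-- the maximal contact number `e_d(n)` of the hyperbolic plane -/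
noncomputable def eNum (d : ℝ) (n : ℕ) : ℕ :=
  sSup {t : ℕ | ∃ P : Finset UpperHalfPlane, P.card = n ∧
    (∀ x ∈ P, ∀ y ∈ P, x ≠ y → d ≤ dist x y) ∧ touching d P = t}

theorem le_eNum (d : ℝ) (n : ℕ) (P : Finset UpperHalfPlane) (h1 : P.card = n)
    (h2 : ∀ x ∈ P, ∀ y ∈ P, x ≠ y → d ≤ dist x y) : touching d P ≤ eNum d n := by
  apply le_csSup
  · refine ⟨n * n, ?_⟩
    rintro t ⟨P, hP, -, rfl⟩
    unfold touching
    calc _ ≤ ((P ×ˢ P).filter (fun q => dist q.1 q.2 = d)).card := Nat.div_le_self _ _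
      _ ≤ (P ×ˢ P).card := Finset.card_filter_le _ _
      _ = n * n := by rw [Finset.card_product, hP]
  · exact ⟨P, h1, h2, rfl⟩

/-- lengths of the balls -/
theorem ball_length (hc : S_Cnt) (c : ℝ) (k : ℕ) :
    (ball c k).length + 6 = 7 * Nat.fib (2 * k + 1) := by
  induction k with
  | zero => simp [ball]
  | succ k ih =>
    simp only [ball, List.length_append, List.length_map]
    rw [(hc k).1]
    have h : Nat.fib (2 * (k + 1) + 1) = Nat.fib (2 * k + 1) + Nat.fib (2 * k + 2) := by
      rw [show 2 * (k + 1) + 1 = (2 * k + 1) + 2 by ring, Nat.fib_add_two]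
    rw [h]; omega

/-- positions of tiling vertices used -/
theorem mem_ball_word (c : ℝ) (k : ℕ) : ∀ v ∈ ball c k, ∃ w, v = ap c w e0 := by
  induction k with
  | zero => intro v hv; simp [ball] at hv; exact ⟨[], by simp [ap, hv]⟩
  | succ k ih =>
    intro v hv
    simp only [ball, List.mem_append, List.mem_map] at hv
    rcases hv with hv | ⟨n, -, rfl⟩
    · exact ih v hv
    · exact ⟨n.2, rfl⟩

/-- decomposition of `n` -/
theorem decomp (n : ℕ) (hn : 1 ≤ n) : ∃ k m : ℕ, n + 6 = 7 * Nat.fib (2 * k + 1) + m ∧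
    m < 7 * Nat.fib (2 * k + 2) := by
  have hex : ∃ k, n + 6 < 7 * Nat.fib (2 * k + 1) := by
    refine ⟨n + 6, ?_⟩
    have h1 : ∀ j : ℕ, j ≤ Nat.fib (2 * j + 1) := by
      intro j
      induction j with
      | zero => simp
      | succ j ih =>
        have h : Nat.fib (2 * (j + 1) + 1) = Nat.fib (2 * j + 1) + Nat.fib (2 * j + 2) := by
          rw [show 2 * (j + 1) + 1 = (2 * j + 1) + 2 by ring, Nat.fib_add_two]
        have h0 : 0 < Nat.fib (2 * j + 2) := Nat.fib_pos.mpr (by omega)
        rw [h]; omega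
    have := h1 (n + 6)
    omega
  classical
  let K := Nat.find hex
  have hK : n + 6 < 7 * Nat.fib (2 * K + 1) := Nat.find_spec hex
  have hK0 : K ≠ 0 := by
    intro h0
    rw [h0] at hK
    simp at hK
    omega
  obtain ⟨k, hk⟩ := Nat.exists_eq_succ_of_ne_zero hK0
  have hlt : ¬ (n + 6 < 7 * Nat.fib (2 * k + 1)) := Nat.find_min hex (by omega)
  refine ⟨k, n + 6 - 7 * Nat.fib (2 * k + 1), by omega, ?_⟩
  rw [hk] at hK
  have h : Nat.fib (2 * (k + 1) + 1) = Nat.fib (2 * k + 1) + Nat.fib (2 * k + 2) := by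
    rw [show 2 * (k + 1) + 1 = (2 * k + 1) + 2 by ring, Nat.fib_add_two]
  rw [Nat.succ_eq_add_one, h] at hK
  omega

/-- the side of the regular triangle with angles `2π/7` -/
noncomputable def d7 : ℝ :=
  Real.arcosh (Real.cos (2 * Real.pi / 7) / (1 - Real.cos (2 * Real.pi / 7)))

theorem cosh_inj' {a b : ℝ} (ha : 0 ≤ a) (hb : 0 ≤ b) (h : Real.cosh a = Real.cosh b) : a = b := by
  have h1 := Real.cosh_le_cosh.mp h.le
  have h2 := Real.cosh_le_cosh.mp h.ge
  rw [abs_of_nonneg ha, abs_of_nonneg hb] at h1 h2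
  exact le_antisymm h1 h2

theorem tanh_ratio (d : ℝ) (hd : 0 < d) :
    Real.tanh (d / 2) / Real.tanh d = Real.cosh d / (1 + Real.cosh d) := by
  rw [Real.tanh_eq_sinh_div_cosh, Real.tanh_eq_sinh_div_cosh]
  have e : d = 2 * (d / 2) := by ring
  have h1 : Real.sinh d = 2 * Real.sinh (d / 2) * Real.cosh (d / 2) := by
    conv_lhs => rw [e]
    rw [Real.sinh_two_mul]
  have h2 : Real.cosh d = 2 * Real.cosh (d / 2) ^ 2 - 1 := by
    conv_lhs => rw [e]
    rw [Real.cosh_two_mul, Real.sinh_sq]; ring
  have h3 : 0 < Real.cosh (d / 2) := Real.cosh_pos _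
  have h4 : 0 < Real.sinh (d / 2) := Real.sinh_pos_iff.mpr (by linarith)
  have h5 : 0 < Real.cosh d := Real.cosh_pos _
  rw [h1]
  have h6 : 1 + Real.cosh d = 2 * Real.cosh (d / 2) ^ 2 := by rw [h2]; ring
  rw [h6]
  field_simp

theorem d7_facts (hn : S_Num) : 0 < d7 ∧
    Real.cosh d7 = Real.cos (2 * Real.pi / 7) / (1 - Real.cos (2 * Real.pi / 7)) ∧
    ∀ d : ℝ, 0 < d → (Real.cos (2 * Real.pi / 7) = Real.tanh (d / 2) / Real.tanh d ↔ d = d7) := by
  obtain ⟨⟨h1, h2, h3⟩, -⟩ := hn
  set x := Real.cos (2 * Real.pi / 7) with hx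
  have hx1 : 0.62 < x := by linarith
  have hx2 : x < 0.63 := by linarith
  have hq : 1 < x / (1 - x) := by
    rw [lt_div_iff₀ (by linarith)]; linarith
  have hc : Real.cosh d7 = x / (1 - x) := by
    unfold d7; rw [← hx]; exact Real.cosh_arcosh hq.le
  have hd0 : 0 < d7 := by
    have h0 : 0 ≤ d7 := by unfold d7; rw [← hx]; exact Real.arcosh_nonneg hq.le
    rcases h0.lt_or_eq with h | h
    · exact h
    · rw [← h, Real.cosh_zero] at hc; linarith
  refine ⟨hd0, hc, fun d hd => ?_⟩
  rw [tanh_ratio d hd]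
  have hp : 0 < 1 + Real.cosh d := by have := Real.cosh_pos d; linarith
  constructor
  · intro h
    have h4 : Real.cosh d = x / (1 - x) := by
      rw [eq_div_iff hp.ne'] at h
      rw [eq_div_iff (by linarith)]; linarith
    have h5 : Real.cosh d = Real.cosh d7 := by rw [h4, hc]
    exact cosh_inj' hd.le hd0.le h5
  · rintro rfl
    rw [hc]
    have : (1 - x) ≠ 0 := by linarith
    field_simp
    ring

/-- main assembly -/
theorem main (hNum : S_Num) (hRcs : S_Rcs) (hMin : S_Min) (hTree : S_Tree) (hCnt : S_Cnt)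
    (hEdg : S_Edg) (hFrm : S_Frm) (hMap : S_Map) (n : ℕ) (hn : 1 ≤ n) :
    ∃ P : Finset UpperHalfPlane, P.card = n ∧ (∀ x ∈ P, ∀ y ∈ P, x ≠ y → d7 ≤ dist x y) ∧
      ⌊(7 / 2 : ℝ) * n - Real.sqrt (5 / 4 * (n : ℝ) ^ 2 + 15 * n - 4)⌋ ≤ (touching d7 P : ℤ) := by
  obtain ⟨hd0, hdc, -⟩ := d7_facts hNum
  have hstd := hNum.1
  set c : ℝ := 2 * Real.cos (2 * Real.pi / 7) with hc
  have hc1 : 1.2469 < c := hstd.2.1
  have hc2 : c < 1.247 := hstd.2.2
  have hcosh : Real.cosh d7 = c / (2 - c) := by
    rw [hdc, hc]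
    have : (1 - Real.cos (2 * Real.pi / 7)) ≠ 0 := by linarith
    have : (2 - 2 * Real.cos (2 * Real.pi / 7)) ≠ 0 := by linarith
    field_simp
  obtain ⟨φ, hφ⟩ := hMap c (by linarith) (by linarith)
  obtain ⟨hR1, hR2, hR3⟩ := hRcs c (by linarith) (by linarith)
  obtain ⟨k, m, hkm, hm⟩ := decomp n hn
  -- the list of points
  set L : List V := ball c k ++ ((lay k).take m).map (pos c) with hL
  have hlen : (lay k).length = 7 * Nat.fib (2 * k + 2) := (hCnt k).1
  have hmle : m ≤ (lay k).length := by omega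
  have hLlen : L.length = n := by
    rw [hL, List.length_append, List.length_map, List.length_take, min_eq_left hmle]
    have := ball_length hCnt c k
    omega
  have hsub : L.Sublist (ball c (k + 1)) := by
    simp only [hL, ball]
    exact List.Sublist.append (List.Sublist.refl _) ((List.take_sublist _ _).map _)
  have hnd : L.Nodup := hsub.nodup (hTree c hstd (k + 1))
  have hword : ∀ v ∈ L, ∃ w, v = ap c w e0 := fun v hv =>
    mem_ball_word c (k + 1) v (hsub.subset hv)
  have hfwd : ∀ v ∈ L, Fwd c v := by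
    intro v hv
    obtain ⟨w, rfl⟩ := hword v hv
    exact hR2 w e0 hR3
  have hdist : ∀ u ∈ L, ∀ v ∈ L, Real.cosh (dist (φ u) (φ v)) = F c u v / (2 - c) :=
    fun u hu v hv => hφ u v (hfwd u hu) (hfwd v hv)
  have hs : 0 < 2 - c := by linarith
  have hmin : ∀ u ∈ L, ∀ v ∈ L, u ≠ v → d7 ≤ dist (φ u) (φ v) := by
    intro u hu v hv huv
    have h1 : Real.cosh d7 ≤ Real.cosh (dist (φ u) (φ v)) := by
      rw [hdist u hu v hv, hcosh]
      obtain ⟨w, rfl⟩ := hword u hu
      obtain ⟨w', rfl⟩ := hword v hv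
      exact div_le_div_of_nonneg_right (hMin c hstd w w' huv) hs.le
    rw [Real.cosh_le_cosh, abs_of_pos hd0, abs_of_nonneg dist_nonneg] at h1
    exact h1
  have hinj : Set.InjOn φ {v | v ∈ L} := by
    intro u hu v hv h
    by_contra hne
    have := hmin u hu v hv hne
    rw [h, dist_self] at this
    linarith
  set P : Finset UpperHalfPlane := L.toFinset.image φ with hP
  have hinj' : Set.InjOn φ (L.toFinset : Set V) := by
    intro u hu v hv h
    exact hinj (by simpa using hu) (by simpa using hv) h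
  have hPcard : P.card = n := by
    rw [hP, Finset.card_image_of_injOn hinj', List.toFinset_card_of_nodup hnd, hLlen]
  refine ⟨P, hPcard, ?_, ?_⟩
  · intro x hx y hy hxy
    rw [hP, Finset.mem_image] at hx hy
    obtain ⟨u, hu, rfl⟩ := hx
    obtain ⟨v, hv, rfl⟩ := hy
    exact hmin u (by simpa using hu) v (by simpa using hv) (fun h => hxy (by rw [h]))
  · -- the number of touching pairs
    have hrev : L.reverse.Nodup := List.nodup_reverse.mpr hnd
    have h2 := two_ec c L.reverse hrev
    have hcard : (op c L.reverse.toFinset).card ≤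
        ((P ×ˢ P).filter (fun q => dist q.1 q.2 = d7)).card := by
      apply Finset.card_le_card_of_injOn (fun q => (φ q.1, φ q.2))
      · intro q hq
        simp only [op, Finset.coe_filter, Finset.mem_product, List.mem_toFinset,
          List.mem_reverse, Set.mem_ofPred_eq] at hq
        simp only [Finset.coe_filter, Finset.mem_product, Set.mem_ofPred_eq, hP, Finset.mem_image,
          List.mem_toFinset]
        refine ⟨⟨⟨q.1, hq.1.1, rfl⟩, ⟨q.2, hq.1.2, rfl⟩⟩, ?_⟩
        have h3 := hdist q.1 hq.1.1 q.2 hq.1.2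
        rw [hq.2, ← hcosh] at h3
        exact cosh_inj' dist_nonneg hd0.le h3
      · intro q hq q' hq' h
        simp only [op, Finset.coe_filter, Finset.mem_product, List.mem_toFinset,
          List.mem_reverse, Set.mem_ofPred_eq] at hq hq'
        have h5 := Prod.mk.inj h
        exact Prod.ext (hinj hq.1.1 hq'.1.1 h5.1) (hinj hq.1.2 hq'.1.2 h5.2)
    have htouch : ec c L.reverse ≤ touching d7 P := by
      unfold touching
      omega
    -- the formula
    obtain ⟨hE0, hE1⟩ := hEdg c hstd k
    have hE2 := hE1 m hmle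
    rw [← hL] at hE2
    set b := nB ((lay k).take m) with hb
    have hbm : b ≤ m := by
      rw [hb]; unfold nB
      exact List.countP_le_length.trans (by rw [List.length_take]; exact min_le_left _ _)
    have hb2 := (hCnt k).2.2 m hmle
    rw [← hb] at hb2
    have hnZ : (n : ℤ) = 7 * Nat.fib (2 * k + 1) - 6 + m := by
      have : ((n + 6 : ℕ) : ℤ) = ((7 * Nat.fib (2 * k + 1) + m : ℕ) : ℤ) := by rw [hkm]
      push_cast at this
      linarith
    have key := hFrm k m b hm hbm hb2
      (if m = 0 then (eb k : ℤ) else eb k + 2 * m + b - 1) n hnZ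
      (fun h => by simp [h]) (fun h => by
        have : m ≠ 0 := by omega
        simp [this])
    have key' : ⌊(7 / 2 : ℝ) * n - Real.sqrt (5 / 4 * (n : ℝ) ^ 2 + 15 * n - 4)⌋ ≤
        (if m = 0 then (eb k : ℤ) else eb k + 2 * m + b - 1) := by
      have := key
      push_cast at this ⊢
      exact this
    refine key'.trans ?_
    by_cases hm0 : m = 0
    · rw [if_pos hm0]
      have hLb : L = ball c k := by rw [hL, hm0]; simp
      rw [hLb] at htouch
      exact_mod_cast hE0.trans htouch
    · rw [if_neg hm0]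
      have : eb k + 2 * m + b ≤ touching d7 P + 1 := hE2.trans (by omega)
      have h9 : ((eb k + 2 * m + b : ℕ) : ℤ) ≤ ((touching d7 P + 1 : ℕ) : ℤ) := by
        exact_mod_cast this
      push_cast at h9
      linarith

end Q121.HY
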