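import Pool.Agent.Q121.HY.Defs

/-! # Project HY: basic algebra (proved) -/

namespace Q121.HY

theorem ap_append (c : ℝ) (w w' : List Bool) (v : V) : ap c (w ++ w') v = ap c w (ap c w' v) := by
  induction w with
  | nil => rfl
  | cons b w ih => cases b <;> simp only [List.cons_append, ap, ih]

theorem F_comm (c : ℝ) (u v : V) : F c u v = F c v u := by unfold F; ring

theorem F_Rv (c : ℝ) (u v : V) : F c (Rv c u) (Rv c v) = F c u v := by
  simp only [F, Rv]; ring

theorem F_Jv (c : ℝ) (u v : V) : F c (Jv c u) (Jv c v) = F c u v := by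
  simp only [F, Jv]; ring

theorem F_ap (c : ℝ) (w : List Bool) (u v : V) : F c (ap c w u) (ap c w v) = F c u v := by
  induction w with
  | nil => rfl
  | cons b w ih =>
    cases b
    · simp only [ap]; rw [F_Jv, ih]
    · simp only [ap]; rw [F_Rv, ih]

theorem Jv_Jv (c : ℝ) (v : V) : Jv c (Jv c v) = v := by
  rcases v with ⟨x, y, z⟩
  simp only [Jv, Prod.mk.injEq]; refine ⟨?_, ?_, ?_⟩ <;> ring

/-- `(RJ)^3 = 1` -/
theorem RJ3 (c : ℝ) (v : V) : Rv c (Jv c (Rv c (Jv c (Rv c (Jv c v))))) = v := by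
  rcases v with ⟨x, y, z⟩
  simp only [Jv, Rv, Prod.mk.injEq]; refine ⟨?_, ?_, ?_⟩ <;> ring

/-- `R^7 = 1` -/
theorem R7 (c : ℝ) (hc : Cub c) (v : V) :
    Rv c (Rv c (Rv c (Rv c (Rv c (Rv c (Rv c v)))))) = v := by
  rcases v with ⟨x, y, z⟩
  unfold Cub at hc
  simp only [Rv, Prod.mk.injEq]
  have h3 : c ^ 3 = 1 + 2 * c - c ^ 2 := by linarith
  have h4 : c ^ 4 = 3 * c ^ 2 - c - 1 := by
    have : c ^ 4 = c * c ^ 3 := by ring
    rw [this, h3]; linear_combination (-1) * h3
  have h5 : c ^ 5 = -4 * c ^ 2 + 5 * c + 3 := by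
    have : c ^ 5 = c * c ^ 4 := by ring
    rw [this, h4]; linear_combination 3 * h3
  have h6 : c ^ 6 = 9 * c ^ 2 - 5 * c - 4 := by
    have : c ^ 6 = c * c ^ 5 := by ring
    rw [this, h5]; linear_combination (-4) * h3
  have h7 : c ^ 7 = -14 * c ^ 2 + 14 * c + 9 := by
    have : c ^ 7 = c * c ^ 6 := by ring
    rw [this, h6]; linear_combination 9 * h3
  refine ⟨?_, ?_, ?_⟩
  · ring_nf; simp only [h3, h4, h5, h6, h7]; ring
  · ring_nf; simp only [h3, h4, h5, h6, h7]; ring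
  · ring_nf; simp only [h3, h4, h5, h6, h7]; ring

theorem ap_rot (c : ℝ) (i j : ℕ) (v : V) : ap c (rot i) (ap c (rot j) v) = ap c (rot (i + j)) v := by
  rw [← ap_append]; unfold rot; rw [List.replicate_append_replicate]

theorem ap_rot7 (c : ℝ) (hc : Cub c) (v : V) : ap c (rot 7) v = v := by
  simp only [rot, List.replicate, ap]; exact R7 c hc v

theorem Rv_inj (c : ℝ) (hc : Cub c) : Function.Injective (Rv c) := by
  intro u v h
  rw [← R7 c hc u, ← R7 c hc v, h]

theorem Jv_inj (c : ℝ) : Function.Injective (Jv c) := by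
  intro u v h
  rw [← Jv_Jv c u, ← Jv_Jv c v, h]

theorem ap_inj (c : ℝ) (hc : Cub c) (w : List Bool) : Function.Injective (ap c w) := by
  induction w with
  | nil => exact fun u v h => h
  | cons b w ih =>
    cases b
    · exact (Jv_inj c).comp ih
    · exact (Rv_inj c hc).comp ih

/-- every word has an inverse word -/
theorem ap_inv (c : ℝ) (hc : Cub c) (w : List Bool) :
    ∃ w' : List Bool, ∀ v, ap c w' (ap c w v) = v ∧ ap c w (ap c w' v) = v := by
  induction w with
  | nil => exact ⟨[], fun v => ⟨rfl, rfl⟩⟩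
  | cons b w ih =>
    obtain ⟨w', h⟩ := ih
    cases b
    · refine ⟨w' ++ [false], fun v => ⟨?_, ?_⟩⟩
      · rw [ap_append]; simp only [ap]; rw [Jv_Jv, (h v).1]
      · rw [ap_append]; simp only [ap]; rw [(h _).2, Jv_Jv]
    · refine ⟨w' ++ rot 6, fun v => ⟨?_, ?_⟩⟩
      · rw [ap_append]
        have : ap c (rot 6) (ap c (true :: w) v) = ap c w v := by
          simp only [rot, List.replicate, ap]; exact R7 c hc _
        rw [this, (h v).1]
      · rw [ap_append]; simp only [ap]; rw [(h _).2]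
        simp only [rot, List.replicate, ap]; exact R7 c hc _

theorem Rv_e0 (c : ℝ) : Rv c e0 = e0 := by simp [Rv, e0]
theorem Rv_e1 (c : ℝ) : Rv c e1 = e2 := by simp [Rv, e1, e2]
theorem Jv_e0 (c : ℝ) : Jv c e0 = e1 := by simp [Jv, e0, e1]
theorem Jv_e1 (c : ℝ) : Jv c e1 = e0 := by simp [Jv, e1, e0]
theorem ap_rot_e0 (c : ℝ) (i : ℕ) : ap c (rot i) e0 = e0 := by
  induction i with
  | zero => rfl
  | succ i ih =>
    have : rot (i + 1) = true :: rot i := by simp [rot, List.replicate_succ]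
    rw [this]; simp only [ap]; rw [ih, Rv_e0]
/-- the neighbour `n_{-1}` of `v0` -/
theorem Jv_e2 (c : ℝ) (hc : Cub c) : Jv c e2 = ap c (rot 6) e1 := by
  apply Rv_inj c hc
  have h : Rv c (ap c (rot 6) e1) = e1 := by
    simp only [rot, List.replicate, ap]; exact R7 c hc e1
  rw [h]
  simp only [Jv, Rv, e1, e2, Prod.mk.injEq]; refine ⟨?_, ?_, ?_⟩ <;> ring

theorem F00 (c : ℝ) : F c e0 e0 = 2 - c := by simp [F, e0]
theorem F11 (c : ℝ) : F c e1 e1 = 2 - c := by simp [F, e1]
theorem F01 (c : ℝ) : F c e0 e1 = c := by simp [F, e0, e1]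
theorem F02 (c : ℝ) : F c e0 e2 = c := by simp [F, e0, e2]
theorem F12 (c : ℝ) : F c e1 e2 = c := by simp [F, e1, e2]

/-- all neighbours of a vertex are at distance `d(7)` -/
theorem F_nb (c : ℝ) (w : List Bool) (i : ℕ) : F c (ap c w e0) (ap c w (ap c (rot i) e1)) = c := by
  rw [F_ap, ← ap_rot_e0 c i, F_ap, F01]

end Q121.HY
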