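import Mathlib

/-!
# Project HY (MP_0702e0_co): contact numbers at the order-7 triangular tiling distance

Definitions.  Vectors are written in the basis `(v0, n0, n1)` of the real quadratic space of
signature `(1,2)`, where `v0, n0, n1` are three mutually adjacent vertices of the order-7
triangular tiling (hyperboloid model).  All coordinates of tiling vertices lie in `ℤ[c]`,
`c = 2 cos (2π/7)`.
-/

namespace Q121.HY

/-- vectors: coordinates with respect to `(v0,n0,n1)` -/
abbrev V := ℝ × ℝ × ℝ

/-- `v0`, the centre of the spiral -/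
def e0 : V := (1, 0, 0)
/-- `n0`, neighbour of `v0` in direction `0` -/
def e1 : V := (0, 1, 0)
/-- `n1`, neighbour of `v0` in direction `1` -/
def e2 : V := (0, 0, 1)

/-- the minimal equation of `2 cos (2π/7)` -/
def Cub (c : ℝ) : Prop := c ^ 3 + c ^ 2 - 2 * c - 1 = 0

/-- rotation by `2π/7` about `v0` -/
def Rv (c : ℝ) (v : V) : V := (v.1 + c * v.2.2, -v.2.2, v.2.1 + c * v.2.2)
/-- rotation by `π` about the midpoint of `v0 n0` -/
def Jv (c : ℝ) (v : V) : V := (v.2.1 + c * v.2.2, v.1 + c * v.2.2, -v.2.2)

/-- action of a word in `R` (`true`) and `J` (`false`); the head of the list acts last -/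
def ap (c : ℝ) : List Bool → V → V
  | [], v => v
  | true :: w, v => Rv c (ap c w v)
  | false :: w, v => Jv c (ap c w v)

/-- the invariant bilinear form, scaled: `F = (2-c) * cosh (distance)` on the hyperboloid -/
def F (c : ℝ) (u v : V) : ℝ :=
  (2 - c) * (u.1 * v.1 + u.2.1 * v.2.1 + u.2.2 * v.2.2)
    + c * (u.1 * v.2.1 + u.2.1 * v.1 + u.1 * v.2.2 + u.2.2 * v.1 + u.2.1 * v.2.2 + u.2.2 * v.2.1)

/-- the upper sheet of the hyperboloid -/
def Fwd (c : ℝ) (v : V) : Prop := F c v v = 2 - c ∧ 0 < F c e0 v

/-- a node of the spanning tree: type (`true` = A, one parent; `false` = B, two parents) and the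
word of its frame -/
abbrev Node := Bool × List Bool

/-- position of a node -/
def pos (c : ℝ) (n : Node) : V := ap c n.2 e0

/-- the word `R ^ i` -/
def rot (i : ℕ) : List Bool := List.replicate i true

/-- the owned children of a node, in the order of the layer -/
def kids (n : Node) : List Node :=
  if n.1 then
    [(false, n.2 ++ (rot 2 ++ [false])), (true, n.2 ++ (rot 3 ++ [false])),
      (true, n.2 ++ (rot 4 ++ [false]))]
  else [(false, n.2 ++ (rot 3 ++ [false])), (true, n.2 ++ (rot 4 ++ [false]))]

/-- layer `k+1` of the spiral (layer `0` here is the first ring) -/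
def lay : ℕ → List Node
  | 0 => (List.range 7).map (fun i => (true, rot i ++ [false]))
  | k + 1 => (lay k).flatMap kids

/-- the positions of the ball of radius `k` (centre, rings `1..k`), in spiral order -/
def ball (c : ℝ) : ℕ → List V
  | 0 => [e0]
  | k + 1 => ball c k ++ (lay k).map (pos c)

/-- direction of the previous sibling in the frame of a node -/
def dprev (t : Bool) : ℕ := if t then 1 else 2

/-- `n'` is the next sibling of `n` -/
def Sib (c : ℝ) (n n' : Node) : Prop :=
  ∀ v : V, ap c n'.2 v = ap c n.2 (ap c (rot 6 ++ (false :: rot (7 - dprev n'.1))) v)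

/-- the convex region (intersection of half-planes) which contains the subtree of a node of type
`t` placed in the standard frame -/
def Reg (c : ℝ) (t : Bool) (v : V) : Prop :=
  if t then 0 < v.1 + v.2.1 + (1 + 2 * c) * v.2.2 ∧ 0 < v.1 - v.2.1 - v.2.2
  else 0 < v.1 + v.2.1 + (1 + 2 * c) * v.2.2 ∧ 0 < v.1 + v.2.1 - v.2.2 ∧ 0 < v.1 - v.2.1

/-- number of `B`'s -/
def nB (l : List Node) : ℕ := l.countP (fun n => !n.1)

/-- number of edges among a list of points for the relation `F = c`, added one after the other -/
noncomputable def ec (c : ℝ) : List V → ℕ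
  | [] => 0
  | x :: L => ec c L + (by classical exact L.countP (fun y => decide (F c x y = c)))

end Q121.HY
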