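import Pool.Agent.Q121.HY.Stm

/-! # Project HY: JOB FIN -/

namespace Q121.HY

theorem conj_bound (c : ℝ) (h1 : -2 < c) (h2 : c < 1) (v : V) (hv : F c v v = 2 - c) :
    |F c e0 v| ≤ 2 - c := by
  rcases v with ⟨x, y, z⟩
  simp only [F, e0] at *
  apply abs_le_of_sq_le_sq _ (by linarith)
  have nn : 0 ≤ y ^ 2 + z ^ 2 + c * y * z := by
    have : y ^ 2 + z ^ 2 + c * y * z = (y + c / 2 * z) ^ 2 + (2 - c) * (2 + c) / 4 * z ^ 2 := by
      ring
    rw [this]
    have : 0 ≤ (2 - c) * (2 + c) / 4 :=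
      div_nonneg (mul_nonneg (by linarith) (by linarith)) (by norm_num)
    positivity
  have h3 : 0 ≤ 4 * (1 - c) * (y ^ 2 + z ^ 2 + c * y * z) := mul_nonneg (by linarith) nn
  have h4 : (2 - c) ^ 2 - ((2 - c) * (1 * x + 0 * y + 0 * z) +
      c * (1 * y + 0 * x + 1 * z + 0 * x + 0 * z + 0 * y)) ^ 2 =
      4 * (1 - c) * (y ^ 2 + z ^ 2 + c * y * z) := by
    linear_combination (-(2 - c)) * hv
  linarith

theorem fin (hn : S_Num) (hu : S_Uni) : S_Fin := by
  intro c hs M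
  obtain ⟨-, c2, c3, hc2, hc3, a2, b2, a3, b3⟩ := hn
  obtain ⟨hc, a1, b1⟩ := hs
  set K : ℝ := |M| + 4 with hK
  have hKp : 0 < K := by positivity
  obtain ⟨N, hN⟩ := exists_nat_ge (20 * K)
  have key : ∀ w : List Bool, |F c e0 (ap c w e0)| ≤ M → ∃ p q r : ℤ,
      F c e0 (ap c w e0) = p + q * c + r * c ^ 2 ∧ |p| ≤ N ∧ |q| ≤ N ∧ |r| ≤ N := by
    intro w hw
    obtain ⟨p, q, r, hpqr⟩ := hu w
    refine ⟨p, q, r, hpqr c hc, ?_⟩
    have ha := hpqr c hc
    have hb := hpqr c2 hc2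
    have hd := hpqr c3 hc3
    have hb' := conj_bound c2 (by linarith) (by linarith) (ap c2 w e0) (by rw [F_ap, F00])
    have hd' := conj_bound c3 (by linarith) (by linarith) (ap c3 w e0) (by rw [F_ap, F00])
    rw [ha] at hw
    rw [hb] at hb'
    rw [hd] at hd'
    have ka : |(p : ℝ) + q * c + r * c ^ 2| ≤ K := hw.trans (by
      rw [hK]; have := le_abs_self M; linarith)
    have kb : |(p : ℝ) + q * c2 + r * c2 ^ 2| ≤ K := hb'.trans (by
      rw [hK]; have := abs_nonneg M; linarith)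
    have kd : |(p : ℝ) + q * c3 + r * c3 ^ 2| ≤ K := hd'.trans (by
      rw [hK]; have := abs_nonneg M; linarith)
    -- divided differences
    have d1 : |(q : ℝ) + r * (c + c2)| ≤ 2 * K := by
      have e : ((q : ℝ) + r * (c + c2)) * (c - c2) =
        (p + q * c + r * c ^ 2) - (p + q * c2 + r * c2 ^ 2) := by ring
      have h5 : |(q : ℝ) + r * (c + c2)| * (c - c2) ≤ 2 * K := by
        rw [← abs_of_pos (show 0 < c - c2 by linarith), ← abs_mul, e]
        calc _ ≤ _ := abs_sub _ _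
          _ ≤ 2 * K := by linarith
      have h6 : 0 ≤ |(q : ℝ) + r * (c + c2)| := abs_nonneg _
      have h7 : (1 : ℝ) ≤ c - c2 := by linarith
      nlinarith
    have d2 : |(q : ℝ) + r * (c2 + c3)| ≤ 2 * K := by
      have e : ((q : ℝ) + r * (c2 + c3)) * (c2 - c3) =
        (p + q * c2 + r * c2 ^ 2) - (p + q * c3 + r * c3 ^ 2) := by ring
      have h5 : |(q : ℝ) + r * (c2 + c3)| * (c2 - c3) ≤ 2 * K := by
        rw [← abs_of_pos (show 0 < c2 - c3 by linarith), ← abs_mul, e]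
        calc _ ≤ _ := abs_sub _ _
          _ ≤ 2 * K := by linarith
      have h6 : 0 ≤ |(q : ℝ) + r * (c2 + c3)| := abs_nonneg _
      have h7 : (1 : ℝ) ≤ c2 - c3 := by linarith
      nlinarith
    have dr : |(r : ℝ)| ≤ 4 * K := by
      have e : (r : ℝ) * (c - c3) = (q + r * (c + c2)) - (q + r * (c2 + c3)) := by ring
      have h5 : |(r : ℝ)| * (c - c3) ≤ 4 * K := by
        rw [← abs_of_pos (show 0 < c - c3 by linarith), ← abs_mul, e]
        calc _ ≤ _ := abs_sub _ _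
          _ ≤ 4 * K := by linarith
      have h6 : 0 ≤ |(r : ℝ)| := abs_nonneg _
      have h7 : (1 : ℝ) ≤ c - c3 := by linarith
      nlinarith
    have dq : |(q : ℝ)| ≤ 6 * K := by
      have e : (q : ℝ) = (q + r * (c + c2)) - r * (c + c2) := by ring
      have h5 : |(r : ℝ) * (c + c2)| ≤ 4 * K := by
        rw [abs_mul]
        have h6 : |c + c2| ≤ 1 := by rw [abs_le]; constructor <;> linarith
        calc |(r : ℝ)| * |c + c2| ≤ |(r : ℝ)| * 1 :=
              mul_le_mul_of_nonneg_left h6 (abs_nonneg _)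
          _ ≤ 4 * K := by linarith
      rw [e]
      calc _ ≤ _ := abs_sub _ _
        _ ≤ 6 * K := by linarith
    have dp : |(p : ℝ)| ≤ 20 * K := by
      have e : (p : ℝ) = (p + q * c + r * c ^ 2) - (q * c + r * c ^ 2) := by ring
      have h5 : |(q : ℝ) * c| ≤ 7.8 * K := by
        rw [abs_mul, abs_of_pos (show 0 < c by linarith)]
        have := abs_nonneg (q : ℝ)
        nlinarith
      have h6 : |(r : ℝ) * c ^ 2| ≤ 6.4 * K := by
        rw [abs_mul, abs_of_pos (show 0 < c ^ 2 by positivity)]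
        have h7 : c ^ 2 ≤ 1.6 := by nlinarith
        calc |(r : ℝ)| * c ^ 2 ≤ (4 * K) * 1.6 :=
              mul_le_mul dr h7 (by positivity) (by positivity)
          _ = 6.4 * K := by ring
      rw [e]
      calc _ ≤ _ := abs_sub _ _
        _ ≤ K + (|(q : ℝ) * c| + |(r : ℝ) * c ^ 2|) := by
          have := abs_add_le ((q : ℝ) * c) (r * c ^ 2)
          linarith
        _ ≤ 20 * K := by linarith
    refine ⟨?_, ?_, ?_⟩
    · have : ((|p| : ℤ) : ℝ) ≤ ((N : ℤ) : ℝ) := by push_cast; linarith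
      exact_mod_cast this
    · have : ((|q| : ℤ) : ℝ) ≤ ((N : ℤ) : ℝ) := by push_cast; linarith
      exact_mod_cast this
    · have : ((|r| : ℤ) : ℝ) ≤ ((N : ℤ) : ℝ) := by push_cast; linarith
      exact_mod_cast this
  classical
  let S : Finset (ℤ × ℤ × ℤ) := Finset.Icc (-(N : ℤ)) N ×ˢ (Finset.Icc (-(N : ℤ)) N ×ˢ
    Finset.Icc (-(N : ℤ)) N)
  apply Set.Finite.subset
    ((S.image (fun t : ℤ × ℤ × ℤ => (t.1 : ℝ) + t.2.1 * c + t.2.2 * c ^ 2)).finite_toSet)
  rintro x ⟨w, rfl, hx⟩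
  obtain ⟨p, q, r, e, hp, hq, hr⟩ := key w hx
  rw [Finset.mem_coe, Finset.mem_image]
  refine ⟨(p, q, r), ?_, e.symm⟩
  simp only [S, Finset.mem_product, Finset.mem_Icc]
  exact ⟨abs_le.mp hp, abs_le.mp hq, abs_le.mp hr⟩

end Q121.HY
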