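import Pool.Agent.Q121.HY.Stm

/-! # Project HY: JOB RCS -/

namespace Q121.HY

theorem rcs_aux (c : ℝ) (h1 : 1 < c) (h2 : c < 2) (x y z x' y' z' : ℝ)
    (hu : Fwd c (x, y, z)) (hv : Fwd c (x', y', z')) :
    2 - c ≤ F c (x, y, z) (x', y', z') ∧
      (F c (x, y, z) (x', y', z') = 2 - c → x = x' ∧ y = y' ∧ z = z') := by
  obtain ⟨hu1, hu2⟩ := hu
  obtain ⟨hv1, hv2⟩ := hv
  simp only [F, e0] at *
  have hs : 0 < 2 - c := by linarith
  set X := (2 - c) * x + c * y + c * z with hX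
  set X' := (2 - c) * x' + c * y' + c * z' with hX'
  set M := 4 * (c - 1) * (y * y' + z * z' + c / 2 * (y * z' + z * y')) with hM
  have hXp : 0 < X := by rw [hX]; linarith
  have hXp' : 0 < X' := by rw [hX']; linarith
  have e1 : 4 * (c - 1) * (y ^ 2 + z ^ 2 + c * y * z) = X ^ 2 - (2 - c) ^ 2 := by
    rw [hX]; linear_combination (-(2 - c)) * hu1
  have e2 : 4 * (c - 1) * (y' ^ 2 + z' ^ 2 + c * y' * z') = X' ^ 2 - (2 - c) ^ 2 := by
    rw [hX']; linear_combination (-(2 - c)) * hv1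
  have e3 : (2 - c) * ((2 - c) * (x * x' + y * y' + z * z') +
      c * (x * y' + y * x' + x * z' + z * x' + y * z' + z * y')) = X * X' - M := by
    rw [hX, hX', hM]; ring
  have cs : M ^ 2 ≤ (X ^ 2 - (2 - c) ^ 2) * (X' ^ 2 - (2 - c) ^ 2) := by
    rw [← e1, ← e2, hM]
    have h3 : 0 ≤ (1 - c ^ 2 / 4) * (y * z' - z * y') ^ 2 := by
      apply mul_nonneg _ (sq_nonneg _)
      have : 1 - c ^ 2 / 4 = (2 - c) * (2 + c) / 4 := by ring
      rw [this]; apply div_nonneg (mul_nonneg hs.le (by linarith)) (by norm_num)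
    have h4 : 0 ≤ 16 * (c - 1) ^ 2 * ((1 - c ^ 2 / 4) * (y * z' - z * y') ^ 2) := by positivity
    have h5 : 4 * (c - 1) * (y ^ 2 + z ^ 2 + c * y * z) *
        (4 * (c - 1) * (y' ^ 2 + z' ^ 2 + c * y' * z')) -
        (4 * (c - 1) * (y * y' + z * z' + c / 2 * (y * z' + z * y'))) ^ 2 =
        16 * (c - 1) ^ 2 * ((1 - c ^ 2 / 4) * (y * z' - z * y') ^ 2) := by ring
    linarith
  have nn : ∀ a b : ℝ, 0 ≤ a ^ 2 + b ^ 2 + c * a * b := by
    intro a b
    have : a ^ 2 + b ^ 2 + c * a * b = (a + c / 2 * b) ^ 2 + (2 - c) * (2 + c) / 4 * b ^ 2 := by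
      ring
    rw [this]
    have : 0 ≤ (2 - c) * (2 + c) / 4 :=
      div_nonneg (mul_nonneg hs.le (by linarith)) (by norm_num)
    positivity
  have n1 : 0 ≤ y ^ 2 + z ^ 2 + c * y * z := nn y z
  have n2 : 0 ≤ y' ^ 2 + z' ^ 2 + c * y' * z' := nn y' z'
  have hXs : 2 - c ≤ X := by
    have : 0 ≤ X ^ 2 - (2 - c) ^ 2 := by rw [← e1]; exact mul_nonneg (by linarith) n1
    exact (pow_le_pow_iff_left₀ hs.le hXp.le two_ne_zero).mp (by linarith)
  have hXs' : 2 - c ≤ X' := by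
    have : 0 ≤ X' ^ 2 - (2 - c) ^ 2 := by rw [← e2]; exact mul_nonneg (by linarith) n2
    exact (pow_le_pow_iff_left₀ hs.le hXp'.le two_ne_zero).mp (by linarith)
  have hXX : (2 - c) ^ 2 ≤ X * X' := by
    rw [sq]; exact mul_le_mul hXs hXs' hs.le hXp.le
  have key : M ≤ X * X' - (2 - c) ^ 2 := by
    by_contra hne
    push Not at hne
    have h0 : 0 ≤ X * X' - (2 - c) ^ 2 := by linarith
    have h5 : (X * X' - (2 - c) ^ 2) ^ 2 < M ^ 2 := pow_lt_pow_left₀ hne h0 two_ne_zero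
    have h6 : (X * X' - (2 - c) ^ 2) ^ 2 - (X ^ 2 - (2 - c) ^ 2) * (X' ^ 2 - (2 - c) ^ 2) =
      (2 - c) ^ 2 * (X - X') ^ 2 := by ring
    have h7 : 0 ≤ (2 - c) ^ 2 * (X - X') ^ 2 := by positivity
    linarith
  constructor
  · have h8 : (2 - c) * (2 - c) ≤ (2 - c) * ((2 - c) * (x * x' + y * y' + z * z') +
      c * (x * y' + y * x' + x * z' + z * x' + y * z' + z * y')) := by rw [e3, ← sq]; linarith
    exact le_of_mul_le_mul_left h8 hs
  · intro heq
    rw [heq] at e3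
    have hM2 : M = X * X' - (2 - c) ^ 2 := by linarith
    have h6 : (X * X' - (2 - c) ^ 2) ^ 2 - (X ^ 2 - (2 - c) ^ 2) * (X' ^ 2 - (2 - c) ^ 2) =
      (2 - c) ^ 2 * (X - X') ^ 2 := by ring
    have h7 : (2 - c) ^ 2 * (X - X') ^ 2 ≤ 0 := by rw [← h6, ← hM2]; linarith
    have h8 : (X - X') ^ 2 ≤ 0 := by
      by_contra hc
      push Not at hc
      have : 0 < (2 - c) ^ 2 * (X - X') ^ 2 := by positivity
      linarith
    have h9 : X = X' := by
      have : X - X' = 0 := by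
        have := le_antisymm h8 (sq_nonneg _)
        exact pow_eq_zero_iff (two_ne_zero) |>.mp this
      linarith
    have h10 : 4 * (c - 1) * ((y - y') ^ 2 + (z - z') ^ 2 + c * (y - y') * (z - z')) = 0 := by
      have : 4 * (c - 1) * ((y - y') ^ 2 + (z - z') ^ 2 + c * (y - y') * (z - z')) =
        4 * (c - 1) * (y ^ 2 + z ^ 2 + c * y * z) + 4 * (c - 1) * (y' ^ 2 + z' ^ 2 + c * y' * z')
          - 2 * M := by rw [hM]; ring
      rw [this, e1, e2, hM2, h9]; ring
    have h11 : (y - y') ^ 2 + (z - z') ^ 2 + c * (y - y') * (z - z') = 0 := by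
      rcases mul_eq_zero.mp h10 with h | h
      · exfalso; linarith
      · exact h
    have h12 : (1 - c / 2) * ((y - y') ^ 2 + (z - z') ^ 2) ≤ 0 := by
      have h13 : 0 ≤ c / 2 * ((y - y') + (z - z')) ^ 2 :=
        mul_nonneg (by linarith) (sq_nonneg _)
      have h14 : (1 - c / 2) * ((y - y') ^ 2 + (z - z') ^ 2) =
        ((y - y') ^ 2 + (z - z') ^ 2 + c * (y - y') * (z - z')) -
          c / 2 * ((y - y') + (z - z')) ^ 2 := by ring
      rw [h14, h11]; linarith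
    have h14 : (y - y') ^ 2 + (z - z') ^ 2 ≤ 0 := by
      by_contra hcon
      push Not at hcon
      have : 0 < (1 - c / 2) * ((y - y') ^ 2 + (z - z') ^ 2) := mul_pos (by linarith) hcon
      linarith
    have hy : y = y' := by
      have : (y - y') ^ 2 = 0 := by
        have := sq_nonneg (y - y'); have := sq_nonneg (z - z'); linarith
      have := pow_eq_zero_iff (two_ne_zero) |>.mp this
      linarith
    have hz : z = z' := by
      have : (z - z') ^ 2 = 0 := by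
        have := sq_nonneg (y - y'); have := sq_nonneg (z - z'); linarith
      have := pow_eq_zero_iff (two_ne_zero) |>.mp this
      linarith
    refine ⟨?_, hy, hz⟩
    have : (2 - c) * x = (2 - c) * x' := by
      rw [hX, hX', hy, hz] at h9; linarith
    exact mul_left_cancel₀ hs.ne' this

theorem rcs : S_Rcs := by
  intro c h1 h2
  have A : ∀ u v : V, Fwd c u → Fwd c v → 2 - c ≤ F c u v ∧ (F c u v = 2 - c → u = v) := by
    rintro ⟨x, y, z⟩ ⟨x', y', z'⟩ hu hv
    obtain ⟨a, b⟩ := rcs_aux c h1 h2 x y z x' y' z' hu hv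
    refine ⟨a, fun h => ?_⟩
    obtain ⟨rfl, rfl, rfl⟩ := b h
    rfl
  have h0 : Fwd c e0 := ⟨F00 c, by rw [F00]; linarith⟩
  have h1' : Fwd c e1 := ⟨F11 c, by rw [F01]; linarith⟩
  refine ⟨A, ?_, h0⟩
  intro w v hv
  induction w with
  | nil => exact hv
  | cons b w ih =>
    cases b
    · simp only [ap]
      refine ⟨by rw [F_Jv]; exact ih.1, ?_⟩
      have h3 : F c e0 (Jv c (ap c w v)) = F c e1 (ap c w v) := by
        rw [← F_Jv c e0, Jv_Jv, Jv_e0]
      rw [h3]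
      have := (A e1 _ h1' ih).1
      linarith
    · simp only [ap]
      refine ⟨by rw [F_Rv]; exact ih.1, ?_⟩
      have h3 : F c e0 (Rv c (ap c w v)) = F c e0 (ap c w v) := by
        conv_lhs => rw [← Rv_e0 c]
        rw [F_Rv]
      rw [h3]; exact ih.2

end Q121.HY
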