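import Pool.Agent.Q121.HY.Stm

/-! # Project HY: JOBS REG and ROOT -/

set_option linter.unusedSimpArgs false
set_option linter.unusedTactic false
set_option linter.unreachableTactic false

namespace Q121.HY

theorem pows (c : ℝ) (hc : Cub c) : c ^ 3 = 1 + 2 * c - c ^ 2 ∧ c ^ 4 = 3 * c ^ 2 - c - 1 ∧
    c ^ 5 = -4 * c ^ 2 + 5 * c + 3 ∧ c ^ 6 = 9 * c ^ 2 - 5 * c - 4 ∧
    c ^ 7 = -14 * c ^ 2 + 14 * c + 9 ∧ c ^ 8 = 28 * c ^ 2 - 19 * c - 14 := by
  unfold Cub at hc
  have h3 : c ^ 3 = 1 + 2 * c - c ^ 2 := by linarith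
  have h4 : c ^ 4 = 3 * c ^ 2 - c - 1 := by
    have : c ^ 4 = c * c ^ 3 := by ring
    rw [this, h3]; linear_combination (-1) * h3
  have h5 : c ^ 5 = -4 * c ^ 2 + 5 * c + 3 := by
    have : c ^ 5 = c * c ^ 4 := by ring
    rw [this, h4]; linear_combination 3 * h3
  have h6 : c ^ 6 = 9 * c ^ 2 - 5 * c - 4 := by
    have : c ^ 6 = c * c ^ 5 := by ring
    rw [this, h5]; linear_combination (-4) * h3
  have h7 : c ^ 7 = -14 * c ^ 2 + 14 * c + 9 := by
    have : c ^ 7 = c * c ^ 6 := by ring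
    rw [this, h6]; linear_combination 9 * h3
  have h8 : c ^ 8 = 28 * c ^ 2 - 19 * c - 14 := by
    have : c ^ 8 = c * c ^ 7 := by ring
    rw [this, h7]; linear_combination (-14) * h3
  exact ⟨h3, h4, h5, h6, h7, h8⟩

theorem act0 (c : ℝ) (hc : Cub c) (x y z : ℝ) : ap c (rot 0 ++ [false]) (x, y, z) =
    ((1) * y + (1 * c) * z,
     (1) * x + (1 * c) * z,
     ((-1)) * z) := by
  obtain ⟨h3, h4, h5, h6, h7, h8⟩ := pows c hc
  simp only [rot, List.replicate, List.cons_append, List.nil_append, ap, Rv, Jv, Prod.mk.injEq]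
  refine ⟨?_, ?_, ?_⟩ <;> (ring_nf; try simp only [h3, h4, h5, h6, h7, h8]; try ring)

theorem act1 (c : ℝ) (hc : Cub c) (x y z : ℝ) : ap c (rot 1 ++ [false]) (x, y, z) =
    ((1) * y,
     (1) * z,
     (1) * x) := by
  obtain ⟨h3, h4, h5, h6, h7, h8⟩ := pows c hc
  simp only [rot, List.replicate, List.cons_append, List.nil_append, ap, Rv, Jv, Prod.mk.injEq]
  refine ⟨?_, ?_, ?_⟩ <;> (ring_nf; try simp only [h3, h4, h5, h6, h7, h8]; try ring)

theorem act2 (c : ℝ) (hc : Cub c) (x y z : ℝ) : ap c (rot 2 ++ [false]) (x, y, z) =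
    ((1 * c) * x + (1) * y,
     ((-1)) * x,
     (1 * c) * x + (1) * z) := by
  obtain ⟨h3, h4, h5, h6, h7, h8⟩ := pows c hc
  simp only [rot, List.replicate, List.cons_append, List.nil_append, ap, Rv, Jv, Prod.mk.injEq]
  refine ⟨?_, ?_, ?_⟩ <;> (ring_nf; try simp only [h3, h4, h5, h6, h7, h8]; try ring)

theorem act3 (c : ℝ) (hc : Cub c) (x y z : ℝ) : ap c (rot 3 ++ [false]) (x, y, z) =
    ((1 * c + 1 * c ^ 2) * x + (1) * y + (1 * c) * z,
     ((-1 * c)) * x + ((-1)) * z,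
     ((-1) + 1 * c ^ 2) * x + (1 * c) * z) := by
  obtain ⟨h3, h4, h5, h6, h7, h8⟩ := pows c hc
  simp only [rot, List.replicate, List.cons_append, List.nil_append, ap, Rv, Jv, Prod.mk.injEq]
  refine ⟨?_, ?_, ?_⟩ <;> (ring_nf; try simp only [h3, h4, h5, h6, h7, h8]; try ring)

theorem act4 (c : ℝ) (hc : Cub c) (x y z : ℝ) : ap c (rot 4 ++ [false]) (x, y, z) =
    ((1 + 2 * c) * x + (1) * y + (1 * c + 1 * c ^ 2) * z,
     (1 + (-1 * c ^ 2)) * x + ((-1 * c)) * z,
     (1 + (-1 * c ^ 2)) * x + ((-1) + 1 * c ^ 2) * z) := by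
  obtain ⟨h3, h4, h5, h6, h7, h8⟩ := pows c hc
  simp only [rot, List.replicate, List.cons_append, List.nil_append, ap, Rv, Jv, Prod.mk.injEq]
  refine ⟨?_, ?_, ?_⟩ <;> (ring_nf; try simp only [h3, h4, h5, h6, h7, h8]; try ring)

theorem act5 (c : ℝ) (hc : Cub c) (x y z : ℝ) : ap c (rot 5 ++ [false]) (x, y, z) =
    ((1 * c + 1 * c ^ 2) * x + (1) * y + (1 + 2 * c) * z,
     ((-1) + 1 * c ^ 2) * x + (1 + (-1 * c ^ 2)) * z,
     ((-1 * c)) * x + (1 + (-1 * c ^ 2)) * z) := by
  obtain ⟨h3, h4, h5, h6, h7, h8⟩ := pows c hc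
  simp only [rot, List.replicate, List.cons_append, List.nil_append, ap, Rv, Jv, Prod.mk.injEq]
  refine ⟨?_, ?_, ?_⟩ <;> (ring_nf; try simp only [h3, h4, h5, h6, h7, h8]; try ring)

theorem act6 (c : ℝ) (hc : Cub c) (x y z : ℝ) : ap c (rot 6 ++ [false]) (x, y, z) =
    ((1 * c) * x + (1) * y + (1 * c + 1 * c ^ 2) * z,
     (1 * c) * x + ((-1) + 1 * c ^ 2) * z,
     ((-1)) * x + ((-1 * c)) * z) := by
  obtain ⟨h3, h4, h5, h6, h7, h8⟩ := pows c hc
  simp only [rot, List.replicate, List.cons_append, List.nil_append, ap, Rv, Jv, Prod.mk.injEq]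
  refine ⟨?_, ?_, ?_⟩ <;> (ring_nf; try simp only [h3, h4, h5, h6, h7, h8]; try ring)

/-- the functionals -/
def fl (c : ℝ) (v : V) : ℝ := v.1 + v.2.1 + (1 + 2 * c) * v.2.2
def fa (v : V) : ℝ := v.1 - v.2.1 - v.2.2
def fb (v : V) : ℝ := v.1 + v.2.1 - v.2.2
def fx (v : V) : ℝ := v.1 - v.2.1

theorem regA (c : ℝ) (v : V) : Reg c true v ↔ 0 < fl c v ∧ 0 < fa v := by
  simp [Reg, fl, fa]
theorem regB (c : ℝ) (v : V) : Reg c false v ↔ 0 < fl c v ∧ 0 < fb v ∧ 0 < fx v := by
  simp [Reg, fl, fb, fx]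

theorem vpos (hr : S_Rcs) (c : ℝ) (h1 : 1 < c) (h2 : c < 2) (w : List Bool) (x : V)
    (hx : Fwd c x) : 0 < F c (ap c w e0) x := by
  obtain ⟨a, b, d⟩ := hr c h1 h2
  have := (a _ _ (b w e0 d) hx).1
  linarith

theorem v0 (hr : S_Rcs) (c : ℝ) (h1 : 1 < c) (h2 : c < 2) (x y z : ℝ)
    (hx : Fwd c (x, y, z)) : 0 < (2 - c) * x + c * y + c * z := by
  have := vpos hr c h1 h2 [] (x, y, z) hx
  simp only [ap, F, e0] at this
  linarith

theorem v1 (hr : S_Rcs) (c : ℝ) (h1 : 1 < c) (h2 : c < 2) (x y z : ℝ)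
    (hx : Fwd c (x, y, z)) : 0 < c * x + (2 - c) * y + c * z := by
  have := vpos hr c h1 h2 [false] (x, y, z) hx
  simp only [ap, F, e0, Jv] at this
  linarith

theorem v4 (hr : S_Rcs) (c : ℝ) (hc : Cub c) (h1 : 1 < c) (h2 : c < 2) (x y z : ℝ)
    (hx : Fwd c (x, y, z)) : 0 < F c (1 + 2 * c, 1 - c ^ 2, 1 - c ^ 2) (x, y, z) := by
  have := vpos hr c h1 h2 (rot 4 ++ [false]) (x, y, z) hx
  rw [show e0 = ((1 : ℝ), (0 : ℝ), (0 : ℝ)) from rfl, act4 c hc] at this
  convert this using 2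
  simp only [Prod.mk.injEq]; refine ⟨?_, ?_, ?_⟩ <;> ring

theorem v2 (hr : S_Rcs) (c : ℝ) (hc : Cub c) (h1 : 1 < c) (h2 : c < 2) (x y z : ℝ)
    (hx : Fwd c (x, y, z)) : 0 < F c (c, -1, c) (x, y, z) := by
  have := vpos hr c h1 h2 (rot 2 ++ [false]) (x, y, z) hx
  rw [show e0 = ((1 : ℝ), (0 : ℝ), (0 : ℝ)) from rfl, act2 c hc] at this
  convert this using 2
  simp only [Prod.mk.injEq]; refine ⟨?_, ?_, ?_⟩ <;> ring

theorem v03 (hr : S_Rcs) (c : ℝ) (hc : Cub c) (h1 : 1 < c) (h2 : c < 2) (x y z : ℝ)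
    (hx : Fwd c (x, y, z)) :
    0 < F c (-c + c * (-1 + c ^ 2), c + c ^ 2 + c * (-1 + c ^ 2), 1 - c ^ 2) (x, y, z) := by
  have := vpos hr c h1 h2 ((rot 0 ++ [false]) ++ (rot 3 ++ [false])) (x, y, z) hx
  rw [ap_append, show e0 = ((1 : ℝ), (0 : ℝ), (0 : ℝ)) from rfl, act3 c hc, act0 c hc] at this
  convert this using 2
  simp only [Prod.mk.injEq]; refine ⟨?_, ?_, ?_⟩ <;> ring

theorem v04 (hr : S_Rcs) (c : ℝ) (hc : Cub c) (h1 : 1 < c) (h2 : c < 2) (x y z : ℝ)
    (hx : Fwd c (x, y, z)) :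
    0 < F c (1 - c ^ 2 + c * (1 - c ^ 2), 1 + 2 * c + c * (1 - c ^ 2), -1 + c ^ 2) (x, y, z) := by
  have := vpos hr c h1 h2 ((rot 0 ++ [false]) ++ (rot 4 ++ [false])) (x, y, z) hx
  rw [ap_append, show e0 = ((1 : ℝ), (0 : ℝ), (0 : ℝ)) from rfl, act4 c hc, act0 c hc] at this
  convert this using 2
  simp only [Prod.mk.injEq]; refine ⟨?_, ?_, ?_⟩ <;> ring

theorem v64 (hr : S_Rcs) (c : ℝ) (hc : Cub c) (h1 : 1 < c) (h2 : c < 2) (x y z : ℝ)
    (hx : Fwd c (x, y, z)) :
    0 < F c (c * (1 + 2 * c) + (1 - c ^ 2) + (c + c ^ 2) * (1 - c ^ 2),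
      c * (1 + 2 * c) + (-1 + c ^ 2) * (1 - c ^ 2), -(1 + 2 * c) - c * (1 - c ^ 2)) (x, y, z) := by
  have := vpos hr c h1 h2 ((rot 6 ++ [false]) ++ (rot 4 ++ [false])) (x, y, z) hx
  rw [ap_append, show e0 = ((1 : ℝ), (0 : ℝ), (0 : ℝ)) from rfl, act4 c hc, act6 c hc] at this
  convert this using 2
  simp only [Prod.mk.injEq]; refine ⟨?_, ?_, ?_⟩ <;> ring

/-- nestedness, parent of type A -/
theorem nestA (hr : S_Rcs) (c : ℝ) (hs : Std c) (x : V) (hx : Fwd c x) :
    (Reg c false x → Reg c true (ap c (rot 2 ++ [false]) x)) ∧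
    (Reg c true x → Reg c true (ap c (rot 3 ++ [false]) x)) ∧
    (Reg c true x → Reg c true (ap c (rot 4 ++ [false]) x)) := by
  obtain ⟨hc, hc1, hc2⟩ := hs
  have h1 : 1 < c := by linarith
  have h2 : c < 2 := by linarith
  obtain ⟨h3, h4, h5, h6, h7, h8⟩ := pows c hc
  rcases x with ⟨x, y, z⟩
  have hcc : c ^ 2 - 1 > 0 := by nlinarith
  refine ⟨fun h => ?_, fun h => ?_, fun h => ?_⟩
  · rw [regB] at h
    obtain ⟨hl, hb, hX⟩ := h
    simp only [fl, fb, fx] at hl hb hX
    rw [act2 c hc, regA]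
    simp only [fl, fa]
    have V0 := v0 hr c h1 h2 x y z hx
    constructor
    · have p1 : 0 < (2 * c) * (x - y) := by positivity
      have p2 : 0 < (c + c ^ 2) * ((2 - c) * x + c * y + c * z) := by positivity
      have : (1 * c) * x + (1) * y + (((-1)) * x) + (1 + 2 * c) * ((1 * c) * x + (1) * z) =
        (2 * c) * (x - y) + (c + c ^ 2) * ((2 - c) * x + c * y + c * z) := by
        ring_nf; simp only [h3, h4]; ring
      linarith
    · linarith
  · rw [regA] at h
    obtain ⟨hl, ha⟩ := h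
    simp only [fl, fa] at hl ha
    rw [act3 c hc, regA]
    simp only [fl, fa]
    have V1 := v1 hr c h1 h2 x y z hx
    have V4 := v4 hr c hc h1 h2 x y z hx
    simp only [F] at V4
    constructor
    · have p1 : 0 < c * (x + y + (1 + 2 * c) * z) := by positivity
      have : (1 * c + 1 * c ^ 2) * x + (1) * y + (1 * c) * z + (((-1 * c)) * x + ((-1)) * z) +
          (1 + 2 * c) * (((-1) + 1 * c ^ 2) * x + (1 * c) * z) =
        c * (x + y + (1 + 2 * c) * z) + (x - y - z) + (c * x + (2 - c) * y + c * z) := by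
        ring_nf; simp only [h3, h4]; ring
      linarith
    · have p1 : 0 < (1 + c) * (x - y - z) := by positivity
      have : (1 * c + 1 * c ^ 2) * x + (1) * y + (1 * c) * z - (((-1 * c)) * x + ((-1)) * z) -
          (((-1) + 1 * c ^ 2) * x + (1 * c) * z) =
        (1 + c) * (x - y - z) + ((2 - c) * ((1 + 2 * c) * x + (1 - c ^ 2) * y + (1 - c ^ 2) * z)
          + c * ((1 + 2 * c) * y + (1 - c ^ 2) * x + (1 + 2 * c) * z + (1 - c ^ 2) * x +
            (1 - c ^ 2) * z + (1 - c ^ 2) * y)) := by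
        ring_nf; simp only [h3, h4]; ring
      linarith
  · rw [regA] at h
    obtain ⟨hl, ha⟩ := h
    simp only [fl, fa] at hl ha
    rw [act4 c hc, regA]
    simp only [fl, fa]
    have V := v03 hr c hc h1 h2 x y z hx
    simp only [F] at V
    constructor
    · have : (1 + 2 * c) * x + (1) * y + (1 * c + 1 * c ^ 2) * z +
          ((1 + (-1 * c ^ 2)) * x + ((-1 * c)) * z) +
          (1 + 2 * c) * ((1 + (-1 * c ^ 2)) * x + ((-1) + 1 * c ^ 2) * z) =
        x + y + (1 + 2 * c) * z := by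
        ring_nf; simp only [h3, h4]; ring
      linarith
    · have p1 : 0 < (c ^ 2 - 1) * (x - y - z) := by positivity
      have p2 := mul_pos (show (0 : ℝ) < c by linarith) V
      have : (1 + 2 * c) * x + (1) * y + (1 * c + 1 * c ^ 2) * z -
          ((1 + (-1 * c ^ 2)) * x + ((-1 * c)) * z) -
          ((1 + (-1 * c ^ 2)) * x + ((-1) + 1 * c ^ 2) * z) =
        (c ^ 2 - 1) * (x - y - z) + c * ((2 - c) * ((-c + c * (-1 + c ^ 2)) * x +
            (c + c ^ 2 + c * (-1 + c ^ 2)) * y + (1 - c ^ 2) * z)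
          + c * ((-c + c * (-1 + c ^ 2)) * y + (c + c ^ 2 + c * (-1 + c ^ 2)) * x +
            (-c + c * (-1 + c ^ 2)) * z + (1 - c ^ 2) * x +
            (c + c ^ 2 + c * (-1 + c ^ 2)) * z + (1 - c ^ 2) * y)) := by
        ring_nf; simp only [h3, h4, h5, h6]; ring
      linarith

/-- nestedness, parent of type B -/
theorem nestB (hr : S_Rcs) (c : ℝ) (hs : Std c) (x : V) (hx : Fwd c x) :
    (Reg c false x → Reg c false (ap c (rot 3 ++ [false]) x)) ∧
    (Reg c true x → Reg c false (ap c (rot 4 ++ [false]) x)) := by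
  obtain ⟨hc, hc1, hc2⟩ := hs
  have h1 : 1 < c := by linarith
  have h2 : c < 2 := by linarith
  obtain ⟨h3, h4, h5, h6, h7, h8⟩ := pows c hc
  rcases x with ⟨x, y, z⟩
  have q1 : 0 < c ^ 2 + c - 2 := by nlinarith
  have q2 : 0 < 4 - 2 * c ^ 2 := by nlinarith
  have q3 : 0 < c ^ 2 + c - 1 := by nlinarith
  have V64 := v64 hr c hc h1 h2 x y z hx
  simp only [F] at V64
  have V4 := v4 hr c hc h1 h2 x y z hx
  simp only [F] at V4
  have V2 := v2 hr c hc h1 h2 x y z hx
  simp only [F] at V2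
  have V04 := v04 hr c hc h1 h2 x y z hx
  simp only [F] at V04
  refine ⟨fun h => ?_, fun h => ?_⟩
  · rw [regB] at h
    obtain ⟨hl, hb, hX⟩ := h
    simp only [fl, fb, fx] at hl hb hX
    rw [act3 c hc, regB]
    simp only [fl, fb, fx]
    refine ⟨?_, ?_, ?_⟩
    · have p1 := mul_pos q2 hX
      have p2 := mul_pos q1 V64
      refine lt_of_lt_of_eq (add_pos p1 p2) ?_
      ring_nf; simp only [h3, h4, h5, h6, h7, h8]; ring
    · refine lt_of_lt_of_eq hb ?_
      ring_nf
    · have p1 : 0 < c * (x - y) := by positivity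
      have p2 := mul_pos (show (0 : ℝ) < c / 2 by linarith) (add_pos V2 V04)
      refine lt_of_lt_of_eq (add_pos p1 p2) ?_
      ring_nf; simp only [h3, h4, h5, h6, h7, h8]; ring
  · rw [regA] at h
    obtain ⟨hl, ha⟩ := h
    simp only [fl, fa] at hl ha
    rw [act4 c hc, regB]
    simp only [fl, fb, fx]
    refine ⟨?_, ?_, ?_⟩
    · refine lt_of_lt_of_eq hl ?_
      ring_nf; simp only [h3, h4, h5, h6, h7, h8]; ring
    · have p1 : 0 < (1 + c) * (x - y - z) := by positivity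
      refine lt_of_lt_of_eq (add_pos p1 V4) ?_
      ring_nf; simp only [h3, h4, h5, h6, h7, h8]; ring
    · have p1 : 0 < ((1 + c) / 2) * (x - y - z) := by positivity
      have p2 := mul_pos (show (0 : ℝ) < (c ^ 2 + c - 1) / 2 by linarith) V64
      refine lt_of_lt_of_eq (add_pos p1 p2) ?_
      ring_nf; simp only [h3, h4, h5, h6, h7, h8]; ring

/-- the root is excluded -/
theorem excl (c : ℝ) (hc : Cub c) (i : ℕ) (t : Bool) (x : V) (h : Reg c t x) :
    ap c (rot i ++ [false]) x ≠ e0 := by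
  intro he
  have h1 : ap c (rot i ++ [false]) e1 = e0 := by
    rw [ap_append]; simp only [ap]; rw [Jv_e1, ap_rot_e0]
  have hx : x = e1 := ap_inj c hc _ (he.trans h1.symm)
  rw [hx] at h
  cases t
  · rw [regB] at h; simp only [fl, fb, fx, e1] at h; linarith [h.2.2]
  · rw [regA] at h; simp only [fl, fa, e1] at h; linarith [h.2]

/-- adjacent siblings are separated -/
theorem sep1 (c : ℝ) (hc : Cub c) (i : ℕ) (x y : V) (hx : 0 < fl c x) (hy : 0 < fa y) :
    ap c (rot i ++ [false]) x ≠ ap c (rot (i + 1) ++ [false]) y := by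
  intro he
  have e : rot (i + 1) ++ [false] = rot i ++ (rot 1 ++ [false]) := by
    simp only [rot]; rw [← List.append_assoc, List.replicate_append_replicate]
  rw [e, ap_append, ap_append] at he
  have he2 := ap_inj c hc _ he
  have he3 : x = Jv c (ap c (rot 1 ++ [false]) y) := by
    rw [← he2]; simp only [ap]; rw [Jv_Jv]
  rcases y with ⟨a, b, d⟩
  rw [act1 c hc] at he3
  simp only [Jv] at he3
  rw [he3] at hx
  simp only [fl, fa] at hx hy
  obtain ⟨h3, h4, h5, h6, h7, h8⟩ := pows c hc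
  nlinarith

/-- separation at distance two, first node of type A or B -/
theorem sep2 (hr : S_Rcs) (c : ℝ) (hs : Std c) (i : ℕ) (t : Bool) (x y : V) (hfx : Fwd c x)
    (hx : Reg c t x) (hy : 0 < fa y) :
    ap c (rot i ++ [false]) x ≠ ap c (rot (i + 2) ++ [false]) y := by
  obtain ⟨hc, hc1, hc2⟩ := hs
  have h1 : 1 < c := by linarith
  have h2 : c < 2 := by linarith
  intro he
  have e : rot (i + 2) ++ [false] = rot i ++ (rot 2 ++ [false]) := by
    simp only [rot]; rw [← List.append_assoc, List.replicate_append_replicate]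
  rw [e, ap_append, ap_append] at he
  have he2 := ap_inj c hc _ he
  have he3 : ap c (rot 5 ++ [false]) x = Jv c y := by
    rw [ap_append, he2, ap_append, ap_rot, ap_rot7 c hc]; rfl
  have he4 : y = Jv c (ap c (rot 5 ++ [false]) x) := by rw [he3, Jv_Jv]
  rcases x with ⟨a, b, d⟩
  rw [act5 c hc] at he4
  simp only [Jv] at he4
  obtain ⟨h3, h4, h5, h6, h7, h8⟩ := pows c hc
  rw [he4] at hy
  simp only [fa] at hy
  cases t
  · rw [regB] at hx
    obtain ⟨hl, hb, hX⟩ := hx
    simp only [fl, fb, fx] at hl hb hX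
    have V64 := v64 hr c hc h1 h2 a b d hfx
    simp only [F] at V64
    have q1 : 0 < c ^ 2 + c - 2 := by nlinarith
    have q2 : 0 < 4 - 2 * c ^ 2 := by nlinarith
    have p1 := mul_pos q2 hX
    have p2 := mul_pos q1 V64
    refine absurd (add_pos (add_pos p1 p2) hy) (not_lt.mpr (le_of_eq ?_))
    ring_nf; simp only [h3, h4, h5, h6, h7, h8]; ring
  · rw [regA] at hx
    obtain ⟨hl, ha⟩ := hx
    simp only [fl, fa] at hl ha
    have V1 := v1 hr c h1 h2 a b d hfx
    have p1 : 0 < c * (a + b + (1 + 2 * c) * d) := by positivity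
    refine absurd (add_pos (add_pos (add_pos p1 ha) V1) hy) (not_lt.mpr (le_of_eq ?_))
    ring_nf; try simp only [h3, h4, h5, h6, h7, h8]
    try ring

/-- separation at distance three -/
theorem sep3 (hr : S_Rcs) (c : ℝ) (hs : Std c) (i : ℕ) (x y : V) (hfx : Fwd c x)
    (hx : Reg c true x) (hy : 0 < fa y) :
    ap c (rot i ++ [false]) x ≠ ap c (rot (i + 3) ++ [false]) y := by
  obtain ⟨hc, hc1, hc2⟩ := hs
  have h1 : 1 < c := by linarith
  have h2 : c < 2 := by linarith
  intro he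
  have e : rot (i + 3) ++ [false] = rot i ++ (rot 3 ++ [false]) := by
    simp only [rot]; rw [← List.append_assoc, List.replicate_append_replicate]
  rw [e, ap_append, ap_append] at he
  have he2 := ap_inj c hc _ he
  have he3 : ap c (rot 4 ++ [false]) x = Jv c y := by
    rw [ap_append, he2, ap_append, ap_rot, ap_rot7 c hc]; rfl
  have he4 : y = Jv c (ap c (rot 4 ++ [false]) x) := by rw [he3, Jv_Jv]
  rcases x with ⟨a, b, d⟩
  rw [act4 c hc] at he4
  simp only [Jv] at he4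
  obtain ⟨h3, h4, h5, h6, h7, h8⟩ := pows c hc
  rw [he4] at hy
  simp only [fa] at hy
  rw [regA] at hx
  obtain ⟨hl, ha⟩ := hx
  simp only [fl, fa] at hl ha
  have V := v03 hr c hc h1 h2 a b d hfx
  simp only [F] at V
  have hcc : 0 < c ^ 2 - 1 := by nlinarith
  have p1 := mul_pos hcc ha
  have p2 := mul_pos (show (0 : ℝ) < c by linarith) V
  refine absurd (add_pos (add_pos p1 p2) hy) (not_lt.mpr (le_of_eq ?_))
  ring_nf; simp only [h3, h4, h5, h6, h7, h8]; ring

theorem reg (hr : S_Rcs) : S_Reg := by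
  intro c hs t
  have hc := hs.1
  cases t
  · refine ⟨?_, ?_, ?_⟩
    · rw [regB]; simp [fl, fb, fx, e0]
    · intro n hn x hx h
      simp only [kids, Bool.false_eq_true, if_false, List.nil_append, List.mem_cons,
        List.not_mem_nil, or_false] at hn
      rcases hn with rfl | rfl
      · exact ⟨(nestB hr c hs x hx).1 h, excl c hc 3 _ x h⟩
      · exact ⟨(nestB hr c hs x hx).2 h, excl c hc 4 _ x h⟩
    · simp only [kids, Bool.false_eq_true, if_false, List.nil_append, List.pairwise_cons,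
        List.mem_cons, List.not_mem_nil, or_false, forall_eq, List.Pairwise.nil, and_true,
        IsEmpty.forall_iff, implies_true]
      intro x y hx hy h h'
      exact sep1 c hc 3 x y ((regB c x).mp h).1 ((regA c y).mp h').2
  · refine ⟨?_, ?_, ?_⟩
    · rw [regA]; simp [fl, fa, e0]
    · intro n hn x hx h
      simp only [kids, if_true, List.nil_append, List.mem_cons,
        List.not_mem_nil, or_false] at hn
      rcases hn with rfl | rfl | rfl
      · exact ⟨(nestA hr c hs x hx).1 h, excl c hc 2 _ x h⟩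
      · exact ⟨(nestA hr c hs x hx).2.1 h, excl c hc 3 _ x h⟩
      · exact ⟨(nestA hr c hs x hx).2.2 h, excl c hc 4 _ x h⟩
    · simp only [kids, if_true, List.nil_append, List.pairwise_cons,
        List.mem_cons, List.not_mem_nil, or_false, forall_eq, List.Pairwise.nil, and_true,
        IsEmpty.forall_iff, implies_true, forall_eq_or_imp]
      refine ⟨⟨?_, ?_⟩, ?_⟩
      · intro x y hx hy h h'
        exact sep1 c hc 2 x y ((regB c x).mp h).1 ((regA c y).mp h').2
      · intro x y hx hy h h'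
        exact sep2 hr c hs 2 false x y hx h ((regA c y).mp h').2
      · intro x y hx hy h h'
        exact sep1 c hc 3 x y ((regA c x).mp h).1 ((regA c y).mp h').2

/-- rotating by a full turn -/
theorem rot_shift (c : ℝ) (hc : Cub c) (j : ℕ) (y : V) :
    ap c (rot (j + 7) ++ [false]) y = ap c (rot j ++ [false]) y := by
  rw [ap_append, ap_append, ← ap_rot, ap_rot7 c hc]

theorem root (hr : S_Rcs) : S_Root := by
  intro c hs
  have hc := hs.1
  refine ⟨?_, ?_⟩
  · intro n hn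
    simp only [lay, List.mem_map, List.mem_range] at hn
    obtain ⟨i, hi, rfl⟩ := hn
    exact ⟨rfl, fun x hx h => excl c hc i _ x h⟩
  · simp only [lay]
    rw [List.pairwise_map]
    have key : ∀ i j : ℕ, i < j → j < 7 → ∀ x y : V, Fwd c x → Fwd c y → Reg c true x →
        Reg c true y → ap c (rot i ++ [false]) x ≠ ap c (rot j ++ [false]) y := by
      intro i j hij hj x y hx hy h h'
      have hx1 := ((regA c x).mp h)
      have hy1 := ((regA c y).mp h')
      have hd : j = i + 1 ∨ j = i + 2 ∨ j = i + 3 ∨ i + 7 = j + 3 ∨ i + 7 = j + 2 ∨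
        i + 7 = j + 1 := by omega
      rcases hd with rfl | rfl | rfl | hd | hd | hd
      · exact sep1 c hc i x y hx1.1 hy1.2
      · exact sep2 hr c hs i true x y hx h hy1.2
      · exact sep3 hr c hs i x y hx h hy1.2
      · rw [← rot_shift c hc i x, hd]
        exact (sep3 hr c hs j y x hy h' hx1.2).symm
      · rw [← rot_shift c hc i x, hd]
        exact (sep2 hr c hs j true y x hy h' hx1.2).symm
      · rw [← rot_shift c hc i x, hd]
        exact (sep1 c hc j y x hy1.1 hx1.2).symm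
    have hp : (List.range 7).Pairwise (fun i j => i < j) := List.pairwise_lt_range
    have hm : (List.range 7).Pairwise (fun i j => i < j ∧ j < 7) := by
      decide
    exact hm.imp (fun {i j} hij x y hx hy h h' => key i j hij.1 hij.2 x y hx hy h h')

end Q121.HY
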