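import Pool.Agent.Q121.HY.Basic

/-!
# Project HY (MP_0702e0_co, specialist): statements of the lemma jobs

Everything was checked numerically (python).  Standing facts: `Basic.lean` (proved).
-/

namespace Q121.HY

/-- the standing hypothesis on `c`: `c = 2 cos (2π/7)` -/
def Std (c : ℝ) : Prop := Cub c ∧ 1.2469 < c ∧ c < 1.247

/-- JOB NUM.  `x = 2 cos (2π/7)` satisfies `Cub`: with `θ = 2π/7`, `cos 4θ = cos 3θ` (as
`4θ + 3θ = 2π`), and `cos 4θ - cos 3θ = (cos θ - 1)(8 cos^3 θ + 4 cos^2 θ - 4 cos θ - 1)` where the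
second factor is the cubic of `2 cos θ`; `cos θ ≠ 1`.  Bounds: `0 < θ < π/2` gives `x > 0`; the
cubic is negative on `[0, 1.2469]` and positive on `[1.247, ∞)`
(`f(1.2469) < 0 < f(1.247)`; for `0 ≤ x ≤ 1.2469`: `f(x) < 0` by convexity / nlinarith).
The other two roots by the intermediate value theorem: `f(-0.5) = -0.125+0.25+1-1 > 0`,
`f(-0.4) = -0.064+0.16+0.8-1 < 0`; `f(-1.9) = -6.859+3.61+3.8-1 < 0`, `f(-1.7) > 0`. -/
def S_Num : Prop := Std (2 * Real.cos (2 * Real.pi / 7)) ∧
  ∃ c2 c3 : ℝ, Cub c2 ∧ Cub c3 ∧ -0.5 < c2 ∧ c2 < -0.4 ∧ -1.9 < c3 ∧ c3 < -1.7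

/-- JOB UNI.  Induction on `w` for the three coordinates: all of them are of the form
`p + q c + r c^2` with integers `p q r` which are the same for all roots `c`
(multiplication by `c`: `c (p + q c + r c^2) = p c + q c^2 + r (1 + 2c - c^2)`). -/
def S_Uni : Prop := ∀ w : List Bool, ∃ p q r : ℤ, ∀ c : ℝ, Cub c →
  F c e0 (ap c w e0) = p + q * c + r * c ^ 2

/-- JOB RCS (reversed Cauchy-Schwarz).  Let `s = 2 - c > 0`, `X_v = F c e0 v`.  Identity
`s * F c u v = X_u X_v - 4 (c-1) (y y' + z z' + (c/2)(y z' + z y'))` for `u = (x,y,z)`,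
`v = (x',y',z')`; the form `N(y,z) = y^2 + z^2 + c y z` is positive definite as `1 < c < 2`.
`4 (c-1) N(u) = X_u^2 - s^2` when `F c u u = s`.  So by Cauchy-Schwarz for `N`:
`s F c u v ≥ X_u X_v - sqrt ((X_u^2-s^2)(X_v^2-s^2)) ≥ s^2` (because
`(X_u X_v - s^2)^2 - (X_u^2-s^2)(X_v^2-s^2) = s^2 (X_u - X_v)^2 ≥ 0` and `X_u X_v ≥ s^2`).
Equality forces `X_u = X_v` and equality in Cauchy-Schwarz, then `u = v`: indeed with
`X_u = X_v`, `F c (u-v) (u-v) = 2s - 2s = 0` and `F c e0 (u-v) = 0`, so `N (u-v) = 0`, so the last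
two coordinates of `u - v` vanish, and then the first one.
Second part: `Rv` and `Jv` preserve the upper sheet: for `Rv`, `F c e0 (Rv c v) = F c (Rv c e0)
(Rv c v) = F c e0 v > 0`; for `Jv`, `F c e0 (Jv c v) = F c (Jv c e0) v`-type identity:
`= F c e1 v ≥ 2 - c > 0` by the first part (`e1` is `Fwd`: `F c e1 e1 = 2-c`,
`F c e0 e1 = c > 0`). -/
def S_Rcs : Prop := ∀ c : ℝ, 1 < c → c < 2 →
  (∀ u v : V, Fwd c u → Fwd c v → 2 - c ≤ F c u v ∧ (F c u v = 2 - c → u = v)) ∧
  (∀ (w : List Bool) (v : V), Fwd c v → Fwd c (ap c w v)) ∧ Fwd c e0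

/-- JOB FIN.  Let `c` be the big root and `c2, c3` the two other roots in `(-2,1)`.
For `c'` in `(-2,1)` the form `F c'` is positive definite
(`F c' v v = (2-2c')(x^2+y^2+z^2) + c' (x+y+z)^2`; for `c' ≥ 0` clear, for `c' < 0` use
`(x+y+z)^2 ≤ 3 (x^2+y^2+z^2)` and `2-2c'+3c' = 2 + c' > 0`), so by Cauchy-Schwarz and `F_ap`
`(F c' e0 (ap c' w e0))^2 ≤ (2-c')^2`.  Hence for words `w` with `|F c e0 (ap c w e0)| ≤ M` the
triple `(p,q,r)` of `S_Uni` satisfies `|p + q c_i + r c_i^2| ≤ max M 4` for the three distinct roots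
`c_i`; the Vandermonde system bounds `|p|,|q|,|r|`, hence there are finitely many triples, and
the set of values is finite. -/
def S_Fin : Prop := ∀ c : ℝ, Std c → ∀ M : ℝ,
  {x : ℝ | ∃ w : List Bool, x = F c e0 (ap c w e0) ∧ |x| ≤ M}.Finite

/-- JOB MIN (uses `S_Rcs` and `S_Fin`).  Let `s = 2 - c`.  By `ap_inv` and `F_ap` it suffices: for
every word `w` with `v = ap c w e0 ≠ e0`, `c ≤ F c e0 v`.  Suppose not; the set of the values
`X = F c e0 (ap c w e0)` with `ap c w e0 ≠ e0`, `X < c` is finite (`S_Fin`, and `X ≥ s > 0` by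
`S_Rcs`) and nonempty; take the smallest value `X`, with word `w`, `v = ap c w e0`.  `X > s` since
`v ≠ e0`.  Consider the word `w' R w` (`w'` the inverse word of `w`) and `u = ap c (w' R w) e0`.
`F c e0 u = F c v (Rv c v)` and (identity, uses `F c v v = s`)
`s * F c v (Rv c v) = X^2 - (1 ... )`, precisely
`s * F c v (Rv c v) = s^2 + (X^2 - s^2) (1 - c/2)`.
`u ≠ e0`: otherwise `Rv c v = v`, which gives `y = -z`, `z = y + c z`, `c z = 0`.. so `y = z = 0`,
`v = (x,0,0)`, `x^2 = 1`, `x > 0`, `v = e0`, a contradiction.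
And `F c e0 u < X`: `s^2 + (X^2-s^2)(1-c/2) < s X` iff `(X - s)((X+s)(1-c/2) - s) < 0` iff
`X + s < s/(1-c/2) = 2` (as `1 - c/2 = s/2`), i.e. `X < 2 - s = c`.  Contradiction to minimality. -/
def S_Min : Prop := ∀ c : ℝ, Std c → ∀ w w' : List Bool, ap c w e0 ≠ ap c w' e0 →
  c ≤ F c (ap c w e0) (ap c w' e0)

/-- JOB REG (uses `S_Rcs` for positivity: `0 < F c (ap c m e0) x` for all words `m`, `Fwd c x`).
The certificates: each of the finitely many inequalities is a nonnegative combination of the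
defining inequalities of `Reg c n.1 x` plus a nonnegative multiple of some positive
functional `F c v x`, `v` a tiling vertex (or: a functional positive on the light cone;
`F c e0 x > 0`, and in general the functional `t` with `t` in the dual cone).
Numerical certificates (found by python, `l = x+y+(1+2c)z`, `r = x-y-z` or `x+y-z`, `b = x-y`;
`f ∘ m = α l + β r + γ b + (positive functional)`):
parent A: child 1 (B): l: (2.8e-9≈0,0,1.11) r: (0,1,0) exactly; child 2 (A): l: (1.247,1), r: (0,1.118);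
child 3 (A): l: (1,0) exactly, r: (0.555,1.247).  parent B: child 1 (B): l: (0.80,0,0.89),
r: (0,1,0) exactly, b: (0,0.40,1.00); child 2 (A): l: (1,0) exactly, r: (0,1.118),
b: (0.90,1.12).  `e0` is excluded: in the frame of an A child the position of the parent is `e1` and
`r(e1) = -1 < 0`; in the frame of a B child `b(e1) = -1 < 0`.
Disjointness: adjacent siblings are separated by the functional `l` of the first one (equal to
minus a positive multiple of the functional `r` of the second); children 1 and 3 of an A node: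
`-r_3` on the region of child 1 is `0.80 l + 0.89 b + positive`. -/
def S_Reg : Prop := ∀ c : ℝ, Std c → ∀ t : Bool,
  Reg c t e0 ∧
  (∀ n ∈ kids (t, []), ∀ x : V, Fwd c x → Reg c n.1 x → Reg c t (ap c n.2 x) ∧ ap c n.2 x ≠ e0) ∧
  (kids (t, [])).Pairwise (fun n n' => ∀ x y : V, Fwd c x → Fwd c y → Reg c n.1 x → Reg c n'.1 y →
    ap c n.2 x ≠ ap c n'.2 y)

/-- JOB ROOT.  The same for the seven A children of the root (frames `R^i J`).  `e0` is excluded as
in JOB REG.  Disjointness of the regions of `R^i J` and `R^j J`, `i < j`: by rotation only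
`d = j - i ∈ {1,..,6}` matters and `d` and `7-d` are symmetric, so `d ∈ {1,2,3}`: with
`l_0,r_0` the functionals of child 0 and `l_d,r_d` those of child `d` (as functionals of the point
in the root frame, i.e. composed with the inverse of the frame):
`d = 1`: `l_0 + r_1 = 0` identically (up to a positive factor); `d = 2`: `l_0 + r_0 + r_2` and
`d = 3`: `l_0/4 + r_0 + r_3` are minus a functional which is positive on the forward light
cone. -/
def S_Root : Prop := ∀ c : ℝ, Std c →
  (∀ n ∈ lay 0, n.1 = true ∧ ∀ x : V, Fwd c x → Reg c n.1 x → ap c n.2 x ≠ e0) ∧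
  (lay 0).Pairwise (fun n n' => ∀ x y : V, Fwd c x → Fwd c y → Reg c n.1 x → Reg c n'.1 y →
    ap c n.2 x ≠ ap c n'.2 y)

/-- JOB TREE (uses `S_Reg`, `S_Root`, `S_Rcs`).  Let `Rg n = {ap c n.2 x | Fwd c x, Reg c n.1 x}`.
By induction on `k`: the regions of the nodes of `lay k` are pairwise disjoint (`List.pairwise_flatMap`,
`S_Reg` transported by `ap_append` and the injectivity `ap_inj`); `U_k = ⋃ Rg n` over `lay k` is
decreasing; `pos c n ∈ Rg n`, and `pos c n ∉ U_{k+1}` for `n ∈ lay k`; `e0 ∉ U_0`.  So all the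
positions are different. -/
def S_Tree : Prop := ∀ c : ℝ, Std c → ∀ k : ℕ, (ball c k).Nodup

/-- JOB CHN.  Algebra of frames: the group relations `RJ3`, `Jv_Jv`, `R7` give: if `Sib c n n'` then
the last kid of `n` (frame `n R^4 J`) and the first kid of `n'` (frame `n' R^(j+1) J`, type B) are
again in the relation `Sib` (both equal `n R^6 J R J`, since `R^4 J R^6 J R^5 = R^6 J R J`); inside
the kids of one node consecutive kids are in relation `Sib` (`R^(i+1) J = R^i J R^6 J R^6`); the ring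
`lay 0` is a cyclic chain (`R^(i+1) J = R^i J R^6 J R^6`). -/
def S_Chn : Prop := ∀ c : ℝ, Cub c → ∀ k : ℕ, (lay k).IsChain (Sib c) ∧
  (∀ a ∈ (lay k).getLast?, ∀ b ∈ (lay k).head?, Sib c a b)

/-- JOB PAR (uses `S_Chn`).  Neighbours of the node `n ∈ lay (k+1)` in the layer below: the owner is
at `e1` in the frame of `n`; if `n` is of type B then `e2` (direction 1) is the position of the
cyclic predecessor of the owner: `n` is the first kid of its owner `n'`, its frame is
`n' R^(j+1) J`, `J e2 = R^6 e1` (`Jv_e2`), so `ap n e2 = ap n' R^j e1` which is the position of the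
predecessor `m` of `n'` by `Sib c m n'`.  Every node of `lay k` has a predecessor in `lay k` by
`S_Chn` (cyclically). -/
def S_Par : Prop := ∀ c : ℝ, Cub c →
  (∀ n ∈ lay 0, n.1 = true ∧ ap c n.2 e1 = e0) ∧
  (∀ k : ℕ, ∀ n ∈ lay (k + 1), ap c n.2 e1 ∈ (lay k).map (pos c) ∧
    (n.1 = false → ap c n.2 e2 ∈ (lay k).map (pos c)))

/-- JOB CNT.  `(A, B)` counts `(7 fib (2k+1), 7 fib (2k))` by induction (`A -> BAA`, `B -> BA`).
Prefix inequality: for every prefix `p` of `lay k` with `a` A's and `b` B's: `a * fib (2k) ≤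
b * fib (2k+1)`; induction: a prefix of `(lay k).flatMap kids` is `p.flatMap kids ++ q` with `p` a
prefix of `lay k` and the types of `q` equal to `[]`, `[B]`, `[B,A]`; `p.flatMap kids` has
`2a + b` A's and `a + b` B's, and
`(2a+b) fib (2k+2) ≤ (a+b) fib (2k+3)` is equivalent to `a fib (2k) ≤ b fib (2k+1)`. -/
def S_Cnt : Prop := ∀ k : ℕ, (lay k).length = 7 * Nat.fib (2 * k + 2) ∧
  nB (lay k) = 7 * Nat.fib (2 * k) ∧
  ∀ m : ℕ, m ≤ (lay k).length → m * Nat.fib (2 * k) ≤ nB ((lay k).take m) * Nat.fib (2 * k + 2)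

/-- number of edges of the ball -/
def eb : ℕ → ℕ
  | 0 => 0
  | k + 1 => eb k + 2 * (lay k).length + nB (lay k)

/-- JOB EDG (uses `S_Tree`, `S_Chn`, `S_Par`).  Vertices are added one after the other in spiral
order; `ec` of the reversed list adds at each step the number of earlier points at `F = c`.  The new
point `x = pos c n`, `n = (lay k)[m]`, has the earlier neighbours: owner (`ap c n.2 e1`, in
`ball c k`), for type B also `ap c n.2 e2` in `ball c k` (`S_Par`), for `m ≥ 1` the predecessor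
`pos c (lay k)[m-1]` = `ap c n.2 (rot (dprev n.1)) e1` (from `Sib`), and for the last one also the
first vertex of the layer `pos c (lay k)[0]` = `ap c n.2 (rot 6) e1`; they are different since the
directions `0`, `1` resp. `0,1,2` and `6` are different (`ap_inj`).  All at `F = c` by `F_nb`.
So the number of edges is at least `eb k + 2m + #B - 1` for `1 ≤ m`, and `eb (k+1)` for the complete
layer. -/
def S_Edg : Prop := ∀ c : ℝ, Std c → ∀ k : ℕ, eb k ≤ ec c (ball c k).reverse ∧
  ∀ m : ℕ, m ≤ (lay k).length →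
    eb k + 2 * m + nB ((lay k).take m) ≤
      ec c (ball c k ++ ((lay k).take m).map (pos c)).reverse + 1

/-- JOB FRM.  `eb k = 21 fib (2k+1) - 7 fib (2k) - 21` by induction from the lengths.
Put `f0 = fib (2k)`, `f1 = fib (2k+1)`, `f2 = f0 + f1`, `n = 7 f1 - 6 + m`,
`L = f0 + f2` (Lucas number), `L^2 = 5 f1^2 - 4` i.e. `f1^2 - f0 f1 - f0^2 = 1` (Cassini).
For `1 ≤ m < 7 f2`, `E = eb k + 2m + b - 1`: the claim is `7n/2 - sqrt(...) < E + 1`; it is enough:
`(7n - 2E - 2)^2 < 5 n^2 + 60 n - 16`.  Here `7n - 2E - 2 = 7L + 3m - 2b =: y`, `x := 7 f1 + m`,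
and `5n^2 + 60n - 16 = 5 x^2 - 196`, so `5 x^2 - y^2 > 196` is needed.  With `b f2 ≥ m f0`:
`f2 y ≤ 7 L f2 + m (3 f2 - 2 f0)`, `3 f2 - 2 f0 = L' := L_{2k+2}`, and
`(f2)^2 (5x^2 - 196) - (7 L f2 + m L')^2 = 4 m (7 f2 - m) > 0` (identity by Cassini), which gives
the claim also when `y` is positive (it is: `b ≤ m`); for `y` negative nothing is to do.
For `m = 0`: `7 n - 2 eb k = 7L`, `(7L)^2 = 5n^2+60n-16`, so the floor equals `eb k`. -/
def S_Frm : Prop := ∀ k m b : ℕ, m < 7 * Nat.fib (2 * k + 2) → b ≤ m →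
  m * Nat.fib (2 * k) ≤ b * Nat.fib (2 * k + 2) →
  ∀ E n : ℤ, (n : ℤ) = 7 * Nat.fib (2 * k + 1) - 6 + m →
  (m = 0 → E = eb k) → (1 ≤ m → E = eb k + 2 * m + b - 1) →
  ⌊(7 / 2 : ℝ) * n - Real.sqrt (5 / 4 * (n : ℝ) ^ 2 + 15 * n - 4)⌋ ≤ E

/-- JOB MAP.  `F c v v / (2-c)` is `X'^2 - Y^2 - Z^2` with `X' = F c e0 v/(2-c)`,
`Y = κ (y + (c/2) z)`, `Z = κ sqrt (1-c^2/4) z`, `κ = 2 sqrt (c-1)/(2-c)`, and the same polarized.
The point of the upper half plane: `φ v = Z/(X'-Y) + i/(X'-Y)` (`X' > |Y|` on the upper sheet;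
elsewhere take `UpperHalfPlane.I`).  `UpperHalfPlane.cosh_dist` and the identity
`a d - b^2 = 1`, `a = X'+Y`, `d = X'-Y`, `b = Z`:
`cosh dist = (a d' + a' d - 2 b b')/2 = F c u v/(2-c)`. -/
def S_Map : Prop := ∀ c : ℝ, 1 < c → c < 2 → ∃ φ : V → UpperHalfPlane, ∀ u v : V,
  Fwd c u → Fwd c v → Real.cosh (dist (φ u) (φ v)) = F c u v / (2 - c)

end Q121.HY
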